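import Mathlib
import Pool.Agent.H69.Boo3

set_option autoImplicit false

namespace Pool.Agent.Results.MP_bd6a20_al.Yes

open Pool.Agent.H69.Boo

theorem result (D : Subgroup F) (hD : Boomerang D) : D.Normal := main hD

end Pool.Agent.Results.MP_bd6a20_al.Yes
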